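import Pool.Agent.Y542.TD.Main

/-!
There is a noncomputable set `D ≤_T ∅^(ω)` such that the theory of a computable structure is
computable in `D` only if it is decidable. So no theory of a computable structure, and in
particular no countably categorical theory with a computable model, has the Turing degree of `D`.

Proof. The theories of the computable structures are uniformly computable in `∅^(ω)`: truth of
formulas is obtained by iterating a uniformly `Σ₁` operator, and finite iterations of such an
operator are uniformly many-one reducible to the finite jumps of `∅`. Let `X_0, X_1, …` be a list
of sets, uniformly computable in `∅^(ω)`, which contains all these theories. We construct `D` by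
finite extensions, with the oracle `∅^(ω)`: given a functional `Φ` and a number `s` we look for
two extensions `τ`, `τ'` of the present string and a number `n` with `Φ^τ(n) ≠ Φ^τ'(n)`, and take
the one which differs from `X_s(n)`. If there are no such extensions and `Φ^D = X_s`, then `X_s` is
computable.
-/

set_option autoImplicit false

namespace Pool.Agent.Results.MP_f36693_lc.NotAllDegrees

open Pool.Agent.Helper227 (TLe)
open Pool.Agent.H685R3 (om)
open Pool.Agent.Y542.TD

/-- There is a set `D` computable in `∅^(ω)` which is not computable and such that, for each
computable structure `A` in a computable signature, if the theory `Th A` is computable in `D` then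
it is decidable; so `Th A` never has the Turing degree of `D`. -/
theorem result : ∃ D : ℕ → Bool, TLe D (om fun _ => false) ∧ ¬ Computable D ∧
    ∀ (S : Sig) (A : Str S), S.IsComputable → A.IsComputable →
      (TLe (Th A) D → Computable (Th A)) ∧ ¬ (TLe (Th A) D ∧ TLe D (Th A)) :=
  main2

end Pool.Agent.Results.MP_f36693_lc.NotAllDegrees
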